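import Pool.Agent.Lib.Helper17.DeloneAbelian

/-!
# The regularity radius when the cluster group has an abelian subgroup of index at most `J`
-/

set_option autoImplicit false

open Metric Module

namespace Pool.Agent.Results.MP_e6a378_co.AbelianIndexBound

open Pool.Agent.Helper17 (Loc lin Near eq_one_of_near card_finset_le_of_comm regular_of_card_lt
  apply_inv_self' clusterGroup_anti)

/-- The symmetry group of the cluster `X ∩ closedBall x ρ`: all isometries `g` of the space with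
`g x = x` that map the cluster onto itself. -/
def clusterGroup {E : Type*} [MetricSpace E] (X : Set E) (x : E) (ρ : ℝ) : Subgroup (E ≃ᵢ E) where
  carrier := {g | g x = x ∧ g '' (X ∩ closedBall x ρ) = X ∩ closedBall x ρ}
  one_mem' := by
    refine ⟨rfl, ?_⟩
    ext z
    constructor
    · rintro ⟨w, hw, rfl⟩
      exact hw
    · intro hz
      exact ⟨z, hz, rfl⟩
  mul_mem' := by
    rintro g h ⟨hg, hg'⟩ ⟨hh, hh'⟩
    refine ⟨?_, ?_⟩
    · change g (h x) = x
      rw [hh, hg]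
    · have : (fun z => (g * h) z) = g ∘ h := rfl
      change (fun z => (g * h) z) '' _ = _
      rw [this, Set.image_comp, hh', hg']
  inv_mem' := by
    rintro g ⟨hg, hg'⟩
    refine ⟨?_, ?_⟩
    · change g.symm x = x
      rw [IsometryEquiv.symm_apply_eq, hg]
    · change g.symm '' _ = _
      conv_lhs => rw [← hg']
      rw [← Set.image_comp]
      have : (g.symm ∘ g) = id := by
        ext z; simp
      rw [this, Set.image_id]

/-- The homomorphism from isometries to affine isometries (Mazur-Ulam). -/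
noncomputable def toAff {E : Type*} [NormedAddCommGroup E] [InnerProductSpace ℝ E] :
    (E ≃ᵢ E) →* (E ≃ᵃⁱ[ℝ] E) where
  toFun g := g.toRealAffineIsometryEquiv
  map_one' := by ext z; simp
  map_mul' g h := by ext z; simp

theorem toAff_apply {E : Type*} [NormedAddCommGroup E] [InnerProductSpace ℝ E]
    (g : E ≃ᵢ E) (z : E) : toAff g z = g z := by
  simp [toAff]

theorem toAff_injective {E : Type*} [NormedAddCommGroup E] [InnerProductSpace ℝ E] :
    Function.Injective (toAff : (E ≃ᵢ E) →* (E ≃ᵃⁱ[ℝ] E)) := by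
  intro g h hgh
  ext z
  rw [← toAff_apply g, hgh, toAff_apply]

theorem loc_of_image {E : Type*} [NormedAddCommGroup E] [InnerProductSpace ℝ E] {X : Set E}
    {g : E ≃ᵢ E} {x y : E} {ρ : ℝ} (hgx : g x = y)
    (hg : g '' (X ∩ closedBall x ρ) = X ∩ closedBall y ρ) : Loc X (toAff g) x ρ := by
  intro z hz
  rw [toAff_apply]
  constructor
  · intro hzX
    have h1 : g z ∈ g '' (X ∩ Metric.closedBall x ρ) := ⟨z, ⟨hzX, hz⟩, rfl⟩
    rw [hg] at h1
    exact h1.1
  · intro hgz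
    have h1 : g z ∈ X ∩ Metric.closedBall y ρ := by
      refine ⟨hgz, ?_⟩
      rw [mem_closedBall, ← hgx, g.dist_eq]
      exact hz
    rw [← hg] at h1
    obtain ⟨w, hw, hwz⟩ := h1
    have := g.injective hwz
    rw [← this]
    exact hw.1

theorem map_clusterGroup {E : Type*} [NormedAddCommGroup E] [InnerProductSpace ℝ E] (X : Set E)
    (x : E) (ρ : ℝ) :
    (clusterGroup X x ρ).map toAff = Pool.Agent.Helper17.clusterGroup X x ρ := by
  ext g
  constructor
  · rintro ⟨h, ⟨hx, hh⟩, rfl⟩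
    exact ⟨by rw [toAff_apply]; exact hx, loc_of_image hx hh⟩
  · rintro ⟨hx, hg⟩
    refine ⟨g.toIsometryEquiv, ⟨by simpa using hx, ?_⟩, ?_⟩
    · ext z
      constructor
      · rintro ⟨w, ⟨hw, hwd⟩, rfl⟩
        refine ⟨(hg w hwd).mp hw, ?_⟩
        rw [mem_closedBall] at hwd ⊢
        have h1 : dist (g w) (g x) = dist w x := g.dist_map w x
        rw [hx] at h1
        simpa [h1] using hwd
      · rintro ⟨hz, hzd⟩
        have h1 : dist (g⁻¹ z) x ≤ ρ := by
          rw [← g.dist_map, apply_inv_self', hx]; exact hzd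
        refine ⟨g⁻¹ z, ⟨?_, h1⟩, apply_inv_self' g z⟩
        rw [hg _ h1, apply_inv_self']
        exact hz
    · ext z
      rw [toAff_apply]
      rfl

/-- Let `d ≥ 1`, `R > 0`, `τ ≥ 12 √d`, `J ≥ 1`, and let `X ⊆ ℝ^d` be a Delone set (points at
mutual distance at least `r` for some `r > 0`, every point of `ℝ^d` within `R` of `X`). Suppose
that the clusters of radius `(τ + 5 d + 3 log₂ J + 3) R` of `X` are all congruent by isometries
matching the centres, and that at some `x ∈ X` the symmetry group of the cluster of radius `τ R`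
has a commutative subgroup `A` of index at most `J`. Then the symmetry group of `X` is transitive
on `X`. -/
theorem result :
    ∀ d : ℕ, 1 ≤ d → ∀ R : ℝ, 0 < R → ∀ τ : ℝ, 12 * Real.sqrt d ≤ τ → ∀ J : ℕ, 1 ≤ J →
      ∀ X : Set (EuclideanSpace ℝ (Fin d)),
        (∃ r : ℝ, 0 < r ∧ ∀ x ∈ X, ∀ y ∈ X, x ≠ y → r ≤ dist x y) →
        (∀ z : EuclideanSpace ℝ (Fin d), ∃ x ∈ X, dist z x ≤ R) →
        (∃ x ∈ X, ∃ A : Subgroup (EuclideanSpace ℝ (Fin d) ≃ᵢ EuclideanSpace ℝ (Fin d)),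
            A ≤ clusterGroup X x (τ * R) ∧
            (∀ a ∈ A, ∀ b ∈ A, a * b = b * a) ∧
            A.relIndex (clusterGroup X x (τ * R)) ≤ J) →
        (∀ x ∈ X, ∀ y ∈ X, ∃ g : EuclideanSpace ℝ (Fin d) ≃ᵢ EuclideanSpace ℝ (Fin d),
            g x = y ∧
            g '' (X ∩ Metric.closedBall x ((τ + 5 * d + 3 * Real.logb 2 J + 3) * R)) =
              X ∩ Metric.closedBall y ((τ + 5 * d + 3 * Real.logb 2 J + 3) * R)) →
        ∀ x ∈ X, ∀ y ∈ X, ∃ g : EuclideanSpace ℝ (Fin d) ≃ᵢ EuclideanSpace ℝ (Fin d),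
          g x = y ∧ g '' X = X := by
  intro d hd R hR τ hτ J hJ X ⟨r, hr, hsep⟩ hX ⟨x₀, hx₀, A, hAG, hAc, hAJ⟩ hiso x hx y hy
  set ρ : ℝ := (τ + 5 * d + 3 * Real.logb 2 J + 3) * R with hρ
  set ρ₀ : ℝ := τ * R with hρ₀
  have hd' : (1 : ℝ) ≤ d := by exact_mod_cast hd
  have hJ' : (1 : ℝ) ≤ J := by exact_mod_cast hJ
  have hlogJ : 0 ≤ Real.logb 2 J := Real.logb_nonneg (by norm_num) hJ'
  have hsqrt1 : 1 ≤ Real.sqrt d := Real.one_le_sqrt.mpr hd'
  -- pass to affine isometries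
  have hiso' : ∀ x ∈ X, ∀ y ∈ X,
      ∃ β : EuclideanSpace ℝ (Fin d) ≃ᵃⁱ[ℝ] EuclideanSpace ℝ (Fin d),
        β x = y ∧ Loc X β x ρ := by
    intro x hx y hy
    obtain ⟨g, hgx, hg⟩ := hiso x hx y hy
    exact ⟨toAff g, by rw [toAff_apply]; exact hgx, loc_of_image hgx hg⟩
  have hfr : finrank ℝ (EuclideanSpace ℝ (Fin d)) = d := by simp
  have hρ₀ρ : ρ₀ ≤ ρ := by
    rw [hρ₀, hρ]
    apply mul_le_mul_of_nonneg_right _ hR.le
    linarith
  have hτ12 : 12 * Real.sqrt d * R ≤ ρ₀ := mul_le_mul_of_nonneg_right hτ hR.le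
  have hρ₀pos : 0 ≤ ρ₀ := le_trans (by positivity) hτ12
  have hnear : ∀ g ∈ Pool.Agent.Helper17.clusterGroup X x₀ ρ₀, ∀ a : ℝ, a < 1 / 2 →
      Near (lin g) a → g = 1 := by
    intro g hg a ha hga
    refine eq_one_of_near (t := 11 / 10 * R) (ρ := ρ₀) hR hr hsep hX (by linarith) ?_ ?_ ha
      hg.1 hg.2 hga
    · rw [hfr]
      refine le_trans ?_ hτ12
      nlinarith
    · intro y hy
      obtain ⟨β, hβ, hβl⟩ := hiso' x₀ hx₀ y hy
      exact ⟨β, hβ, hβl.mono hρ₀ρ⟩
  -- finiteness of the cluster group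
  have hfin : (Pool.Agent.Helper17.clusterGroup X x₀ ρ₀ : Set
      (EuclideanSpace ℝ (Fin d) ≃ᵃⁱ[ℝ] EuclideanSpace ℝ (Fin d))).Finite := by
    by_contra hinf
    obtain ⟨s, hs, hsc⟩ := Set.Infinite.exists_subset_card_eq hinf (5 ^ (d ^ 2) + 1)
    have := Pool.Agent.Helper17.card_finset_le (Pool.Agent.Helper17.clusterGroup X x₀ ρ₀) hnear s
      (fun g hg => hs hg)
    rw [hfr] at this
    omega
  have hfinG : Finite (Pool.Agent.Helper17.clusterGroup X x₀ ρ₀) := hfin
  -- the abelian subgroup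
  set G' := Pool.Agent.Helper17.clusterGroup X x₀ ρ₀ with hG'
  set A' := A.map toAff with hA'
  have hA'G' : A' ≤ G' := by
    rw [hA', hG', ← map_clusterGroup]
    exact Subgroup.map_mono hAG
  have hA'c : ∀ g ∈ A', ∀ h ∈ A', g * h = h * g := by
    rintro g ⟨a, ha, rfl⟩ h ⟨b, hb, rfl⟩
    rw [← map_mul, hAc a ha b hb, map_mul]
  have hrel : A'.relIndex G' ≤ J := by
    rw [hA', hG', ← map_clusterGroup, Subgroup.relIndex_map_map_of_injective _ _ toAff_injective]
    exact hAJ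
  have hfinA : (A' : Set
      (EuclideanSpace ℝ (Fin d) ≃ᵃⁱ[ℝ] EuclideanSpace ℝ (Fin d))).Finite := hfin.subset hA'G'
  have hcardA : Nat.card A' ≤ 5 ^ d := by
    have h1 := card_finset_le_of_comm A' hA'c (fun g hg => hnear g (hA'G' hg)) hfinA.toFinset
      (fun g hg => by simpa using hg)
    rw [hfr] at h1
    have h2 : Nat.card A' = hfinA.toFinset.card := Nat.card_eq_card_finite_toFinset hfinA
    rw [h2]; exact h1
  have hcardG : Nat.card G' ≤ 5 ^ d * J := by
    have h1 : Nat.card A' * A'.relIndex G' = Nat.card G' := by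
      have := Subgroup.relIndex_mul_relIndex (⊥ : Subgroup
        (EuclideanSpace ℝ (Fin d) ≃ᵃⁱ[ℝ] EuclideanSpace ℝ (Fin d))) A' G' bot_le hA'G'
      simpa [Subgroup.relIndex_bot_left] using this
    rw [← h1]
    exact Nat.mul_le_mul hcardA hrel
  -- number of steps
  set m : ℕ := Nat.log 2 (5 ^ d * J) + 1 with hm
  have hlt : 5 ^ d * J < 2 ^ m := Nat.lt_pow_succ_log_self (by norm_num) _
  have hm1 : (m : ℝ) ≤ 7 / 3 * d + Real.logb 2 J + 1 := by
    have h1 : ((Nat.log 2 (5 ^ d * J) : ℕ) : ℝ) ≤ Real.logb 2 ((5 ^ d * J : ℕ) : ℝ) :=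
      Real.natLog_le_logb _ _
    have h2 : Real.logb 2 ((5 ^ d * J : ℕ) : ℝ) = d * Real.logb 2 5 + Real.logb 2 J := by
      push_cast
      rw [Real.logb_mul (by positivity) (by positivity), Real.logb_pow]
    have h3 : Real.logb 2 5 ≤ 7 / 3 := by
      rw [Real.logb_le_iff_le_rpow (by norm_num) (by norm_num)]
      have h4 : ((5 : ℝ)) ^ (3 : ℕ) ≤ ((2 : ℝ) ^ ((7 : ℝ) / 3)) ^ (3 : ℕ) := by
        rw [← Real.rpow_natCast ((2 : ℝ) ^ ((7 : ℝ) / 3)) 3, ← Real.rpow_mul (by norm_num)]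
        norm_num
      exact le_of_pow_le_pow_left₀ (by norm_num) (by positivity) h4
    rw [hm]
    push_cast
    nlinarith
  have hρρ : ρ₀ + m * (21 / 10 * R) ≤ ρ := by
    rw [hρ₀, hρ]
    have h1 : τ + m * (21 / 10) ≤ τ + 5 * d + 3 * Real.logb 2 J + 3 := by
      nlinarith
    have h2 := mul_le_mul_of_nonneg_right h1 hR.le
    nlinarith
  obtain ⟨g, hgx, hg⟩ := regular_of_card_lt (s := 21 / 10 * R) (ρ₀ := ρ₀) hR (by linarith)
    hρ₀pos m (5 ^ d * J) hX hρρ hiso' hx₀ hfinG hcardG hlt hx hy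
  refine ⟨g.toIsometryEquiv, by simpa using hgx, ?_⟩
  ext z
  constructor
  · rintro ⟨w, hw, rfl⟩
    exact (hg w).mp hw
  · intro hz
    refine ⟨g⁻¹ z, ?_, ?_⟩
    · rw [hg, apply_inv_self']; exact hz
    · exact apply_inv_self' g z

end Pool.Agent.Results.MP_e6a378_co.AbelianIndexBound
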