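import Pool.Agent.Lib.Helper17.RationalRank

/-!
# The regularity radius of Delone sets of small rational rank
-/

set_option autoImplicit false

open Metric Module

namespace Pool.Agent.Results.MP_e6a378_co.RationalRankBound

open Pool.Agent.Helper17 (card_le_of_rank clusterGroup_finite regular_of_card_le)

/-- Let `d ≥ 1`, `R > 0`, `N` a natural number, and let `X ⊆ ℝ^d` be a Delone set (points at
mutual distance at least `r` for some `r > 0`, every point of `ℝ^d` within `R` of `X`). Suppose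
that for some `x ∈ X` the vectors `y - x`, `y ∈ X` within `12 √d R` of `x`, are rational
combinations of `N` vectors `v i`, and that the clusters of radius
`(12 √d + 5 N log₂ (2 N) + 3) R` of `X` are all congruent by isometries matching the centres.
Then the symmetry group of `X` is transitive on `X`. -/
theorem result :
    ∀ d : ℕ, 1 ≤ d → ∀ R : ℝ, 0 < R → ∀ N : ℕ,
      ∀ X : Set (EuclideanSpace ℝ (Fin d)),
        (∃ r : ℝ, 0 < r ∧ ∀ x ∈ X, ∀ y ∈ X, x ≠ y → r ≤ dist x y) →
        (∀ z : EuclideanSpace ℝ (Fin d), ∃ x ∈ X, dist z x ≤ R) →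
        (∃ x ∈ X, ∃ v : Fin N → EuclideanSpace ℝ (Fin d),
            ∀ y ∈ X, dist y x ≤ 12 * Real.sqrt d * R →
              ∃ c : Fin N → ℚ, y - x = ∑ i, (c i : ℝ) • v i) →
        (∀ x ∈ X, ∀ y ∈ X, ∃ g : EuclideanSpace ℝ (Fin d) ≃ᵢ EuclideanSpace ℝ (Fin d),
            g x = y ∧
            g '' (X ∩ Metric.closedBall x
                ((12 * Real.sqrt d + 5 * N * Real.logb 2 (2 * N) + 3) * R)) =
              X ∩ Metric.closedBall y
                ((12 * Real.sqrt d + 5 * N * Real.logb 2 (2 * N) + 3) * R)) →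
        ∀ x ∈ X, ∀ y ∈ X, ∃ g : EuclideanSpace ℝ (Fin d) ≃ᵢ EuclideanSpace ℝ (Fin d),
          g x = y ∧ g '' X = X := by
  intro d hd R hR N X hsep hX ⟨x₀, hx₀, v, hv⟩ hiso x hx y hy
  have hd' : (1 : ℝ) ≤ d := by exact_mod_cast hd
  have hsqrt1 : 1 ≤ Real.sqrt d := Real.one_le_sqrt.mpr hd'
  -- the logarithm of the factorial
  have hlog : Real.logb 2 (((2 * N).factorial : ℕ) : ℝ) ≤ 2 * N * Real.logb 2 (2 * N) := by
    have hpos : (0 : ℝ) < (((2 * N).factorial : ℕ) : ℝ) := by
      exact_mod_cast Nat.factorial_pos _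
    have h1 : (((2 * N).factorial : ℕ) : ℝ) ≤ (2 * N : ℝ) ^ (2 * N) := by
      exact_mod_cast Nat.factorial_le_pow (2 * N)
    refine (Real.logb_le_logb_of_le (by norm_num) hpos h1).trans (le_of_eq ?_)
    rw [Real.logb_pow]
    push_cast
    ring
  have hlog0 : 0 ≤ N * Real.logb 2 (2 * N) := by
    rcases Nat.eq_zero_or_pos N with h | h
    · rw [h]; simp
    · have h1 : (1 : ℝ) ≤ N := by exact_mod_cast h
      exact mul_nonneg (by positivity) (Real.logb_nonneg (by norm_num) (by linarith))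
  have hρ : (12 * Real.sqrt d + 21 / 10 * (Real.logb 2 (((2 * N).factorial : ℕ) : ℝ) + 1)) * R ≤
      (12 * Real.sqrt d + 5 * N * Real.logb 2 (2 * N) + 3) * R := by
    apply mul_le_mul_of_nonneg_right _ hR.le
    nlinarith
  have hτρ : 12 * Real.sqrt d * R ≤
      (12 * Real.sqrt d + 5 * N * Real.logb 2 (2 * N) + 3) * R := by
    apply mul_le_mul_of_nonneg_right _ hR.le
    nlinarith
  have hfin := clusterGroup_finite hd hR (le_refl _) hτρ hsep hX hiso hx₀
  obtain ⟨r, hr, hsep'⟩ := hsep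
  have hcard := card_le_of_rank hR hr hsep' hX hx₀
    (mul_le_mul_of_nonneg_right (by linarith) hR.le) v hv hfin
  exact regular_of_card_le hd hR (le_refl _) (Nat.factorial_pos _) ⟨r, hr, hsep'⟩ hX hx₀ hcard hρ
    hiso hx hy

end Pool.Agent.Results.MP_e6a378_co.RationalRankBound
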