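import Pool.Agent.Lib.H32E.FN2

/-!
# The regularity radius of Delone sets in `ℝ^d` is at most `13000 d log d R`

For `d ≥ 2` and all `0 < r ≤ R`, whatever `r`.
-/

set_option autoImplicit false

open Metric

namespace Pool.Agent.Results.MP_e6a378_co.RegularityRadius

/-- An `(r, R)`-Delone set in `ℝ^d`: distinct points have distance at least `2 r`, and every closed
ball of radius `R` contains a point of the set. -/
def IsDelone (d : ℕ) (r R : ℝ) (X : Set (EuclideanSpace ℝ (Fin d))) : Prop :=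
  (∀ x ∈ X, ∀ y ∈ X, x ≠ y → 2 * r ≤ dist x y) ∧
    ∀ z : EuclideanSpace ℝ (Fin d), ∃ x ∈ X, dist z x ≤ R

/-- The set `X` is `ρ`-isometric: for all points `x, y` of `X` there is an isometry of `ℝ^d` which
takes `x` to `y` and the points of `X` at distance at most `ρ` from `x` to the points of `X` at
distance at most `ρ` from `y`. -/
def IsIsometric (d : ℕ) (ρ : ℝ) (X : Set (EuclideanSpace ℝ (Fin d))) : Prop :=
  ∀ x ∈ X, ∀ y ∈ X, ∃ g : EuclideanSpace ℝ (Fin d) ≃ᵢ EuclideanSpace ℝ (Fin d),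
    g x = y ∧ g '' (X ∩ Metric.closedBall x ρ) = X ∩ Metric.closedBall y ρ

/-- The set `X` is regular: the isometries of `ℝ^d` which map `X` onto itself act transitively
on `X`. -/
def IsRegular (d : ℕ) (X : Set (EuclideanSpace ℝ (Fin d))) : Prop :=
  ∀ x ∈ X, ∀ y ∈ X, ∃ g : EuclideanSpace ℝ (Fin d) ≃ᵢ EuclideanSpace ℝ (Fin d),
    g x = y ∧ g '' X = X

/-- The regularity radius: the infimum of all `ρ ≥ 0` such that every `ρ`-isometric `(r, R)`-Delone
set in `ℝ^d` is regular. -/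
noncomputable def regularityRadius (d : ℕ) (r R : ℝ) : ℝ :=
  sInf {ρ : ℝ | 0 ≤ ρ ∧ ∀ X : Set (EuclideanSpace ℝ (Fin d)),
    IsDelone d r R X → IsIsometric d ρ X → IsRegular d X}

/-- For all `d ≥ 2`, `0 < r` and `0 < R`: every `(r, R)`-Delone set in `ℝ^d` which is
`ρ`-isometric for one `ρ ≥ 13000 d log d R` is regular; in particular the regularity radius is at
most `13000 d log d R`. -/
theorem result :
    ∀ d : ℕ, 2 ≤ d → ∀ r R : ℝ, 0 < r → 0 < R →
      (∀ ρ : ℝ, 13000 * ((d : ℝ) * Real.log d) * R ≤ ρ →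
        ∀ X : Set (EuclideanSpace ℝ (Fin d)),
          IsDelone d r R X → IsIsometric d ρ X → IsRegular d X) ∧
      regularityRadius d r R ≤ 13000 * ((d : ℝ) * Real.log d) * R := by
  intro d hd r R hr hR
  have main : ∀ ρ : ℝ, 13000 * ((d : ℝ) * Real.log d) * R ≤ ρ →
      ∀ X : Set (EuclideanSpace ℝ (Fin d)),
        IsDelone d r R X → IsIsometric d ρ X → IsRegular d X := by
    intro ρ hρ X hX hiso x hx y hy
    have hsep : ∃ r : ℝ, 0 < r ∧ ∀ x ∈ X, ∀ y ∈ X, x ≠ y → r ≤ dist x y :=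
      ⟨2 * r, by linarith, hX.1⟩
    rcases Nat.lt_or_ge d 16 with h | h
    · exact H32E.small_dim hd h hR hsep hX.2 hρ hiso hx hy
    · exact H32E.large_dim h hR hsep hX.2 hρ hiso hx hy
  refine ⟨main, csInf_le ⟨0, fun ρ hρ => hρ.1⟩ ⟨?_, main _ le_rfl⟩⟩
  have h1 : 0 ≤ Real.log d := Real.log_nonneg (by
    have : (2 : ℝ) ≤ d := by exact_mod_cast hd
    linarith)
  positivity

end Pool.Agent.Results.MP_e6a378_co.RegularityRadius
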