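import Pool.Agent.Lib.Helper17.SolvableJordan
import Pool.Agent.Lib.Helper17.ClusterRep
import Pool.Agent.Results.MP_e6a378_co.AbelianIndexBound

/-!
# The regularity radius when the cluster group has a solvable subgroup of index at most `J`
-/

set_option autoImplicit false

open Metric Module

namespace Pool.Agent.Results.MP_e6a378_co.SolvableBound

open Pool.Agent.Results.MP_e6a378_co.AbelianIndexBound (clusterGroup)
open Pool.Agent.Helper17 (jordanBound cplxRep cplxRep_injOn exists_comm_of_finrank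
  clusterGroup_finite)

/-- Let `d ≥ 1`, `R > 0`, `τ ≥ 12 √d`, `J ≥ 1`, and let `X ⊆ ℝ^d` be a Delone set (points at
mutual distance at least `r` for some `r > 0`, every point of `ℝ^d` within `R` of `X`). Suppose
that the clusters of radius `(τ + 20 d + 3 d log₂ d + 3 log₂ J) R` of `X` are all congruent by
isometries matching the centres, and that at some `x ∈ X` the symmetry group of the cluster of
radius `τ R` has a solvable subgroup `S` of index at most `J`. Then the symmetry group of `X` is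
transitive on `X`. -/
theorem result :
    ∀ d : ℕ, 1 ≤ d → ∀ R : ℝ, 0 < R → ∀ τ : ℝ, 12 * Real.sqrt d ≤ τ → ∀ J : ℕ, 1 ≤ J →
      ∀ X : Set (EuclideanSpace ℝ (Fin d)),
        (∃ r : ℝ, 0 < r ∧ ∀ x ∈ X, ∀ y ∈ X, x ≠ y → r ≤ dist x y) →
        (∀ z : EuclideanSpace ℝ (Fin d), ∃ x ∈ X, dist z x ≤ R) →
        (∃ x ∈ X, ∃ S : Subgroup (EuclideanSpace ℝ (Fin d) ≃ᵢ EuclideanSpace ℝ (Fin d)),
            S ≤ clusterGroup X x (τ * R) ∧
            Group.IsSolvable S ∧
            S.relIndex (clusterGroup X x (τ * R)) ≤ J) →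
        (∀ x ∈ X, ∀ y ∈ X, ∃ g : EuclideanSpace ℝ (Fin d) ≃ᵢ EuclideanSpace ℝ (Fin d),
            g x = y ∧
            g '' (X ∩ Metric.closedBall x
                ((τ + 20 * d + 3 * d * Real.logb 2 d + 3 * Real.logb 2 J) * R)) =
              X ∩ Metric.closedBall y
                ((τ + 20 * d + 3 * d * Real.logb 2 d + 3 * Real.logb 2 J) * R)) →
        ∀ x ∈ X, ∀ y ∈ X, ∃ g : EuclideanSpace ℝ (Fin d) ≃ᵢ EuclideanSpace ℝ (Fin d),
          g x = y ∧ g '' X = X := by
  intro d hd R hR τ hτ J hJ X hsep hX ⟨x₀, hx₀, S, hSG, hSs, hSJ⟩ hiso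
  set ρ : ℝ := (τ + 20 * d + 3 * d * Real.logb 2 d + 3 * Real.logb 2 J) * R with hρ
  have hd' : (1 : ℝ) ≤ d := by exact_mod_cast hd
  have hJ' : (1 : ℝ) ≤ J := by exact_mod_cast hJ
  have hlogJ : 0 ≤ Real.logb 2 J := Real.logb_nonneg (by norm_num) hJ'
  have hlogd : 0 ≤ Real.logb 2 d := Real.logb_nonneg (by norm_num) hd'
  have hρ₀ : τ * R ≤ ρ := by
    rw [hρ]
    apply mul_le_mul_of_nonneg_right _ hR.le
    nlinarith [mul_nonneg (by linarith : (0 : ℝ) ≤ d) hlogd]
  have hfin := clusterGroup_finite hd hR hτ hρ₀ hsep hX hiso hx₀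
  -- the solvable subgroup is finite
  have hfinS : Finite S :=
    Finite.of_injective (Subgroup.inclusion hSG) (Subgroup.inclusion_injective hSG)
  -- the abelian subgroup
  obtain ⟨A, hAc, hAi⟩ := exists_comm_of_finrank d
    (cplxRep.comp S.subtype : Representation ℂ S (Fin d → ℂ)) (by simp)
  have hfix : ∀ a : S, (a : EuclideanSpace ℝ (Fin d) ≃ᵢ EuclideanSpace ℝ (Fin d)) x₀ = x₀ :=
    fun a => (hSG a.2).1
  have hrel : (A.map S.subtype).relIndex (clusterGroup X x₀ (τ * R)) ≤
      jordanBound d * J := by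
    have h1 := Subgroup.relIndex_mul_relIndex (A.map S.subtype) S
      (clusterGroup X x₀ (τ * R)) (Subgroup.map_subtype_le A) hSG
    rw [← h1]
    refine Nat.mul_le_mul ?_ hSJ
    have h2 : (A.map S.subtype).relIndex S = A.index := by
      rw [Subgroup.relIndex, Subgroup.subgroupOf, Subgroup.comap_map_eq_self_of_injective]
      exact Subtype.val_injective
    rw [h2]
    exact hAi
  have hJB : 1 ≤ jordanBound d * J := by
    have : 1 ≤ jordanBound d :=
      Nat.mul_pos (by positivity) (Nat.factorial_pos d)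
    exact Nat.mul_pos this hJ
  -- the radius
  have hlog : Real.logb 2 ((jordanBound d * J : ℕ) : ℝ) ≤
      4 * d + d * Real.logb 2 d + Real.logb 2 J := by
    have h1 : ((jordanBound d * J : ℕ) : ℝ) ≤ (16 : ℝ) ^ d * (d : ℝ) ^ d * J := by
      unfold jordanBound
      push_cast
      have h2 : ((d.factorial : ℕ) : ℝ) ≤ (d : ℝ) ^ d := by
        exact_mod_cast Nat.factorial_le_pow d
      gcongr
    have hpos : (0 : ℝ) < ((jordanBound d * J : ℕ) : ℝ) := by exact_mod_cast hJB
    refine (Real.logb_le_logb_of_le (by norm_num) hpos h1).trans (le_of_eq ?_)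
    rw [Real.logb_mul (by positivity) (by positivity), Real.logb_mul (by positivity)
      (by positivity), Real.logb_pow, Real.logb_pow]
    have h3 : Real.logb 2 16 = 4 := by
      rw [show (16 : ℝ) = 2 ^ (4 : ℕ) by norm_num, Real.logb_pow, Real.logb_self_eq_one
        (by norm_num)]
      norm_num
    rw [h3]
    ring
  have hρ' : (τ + 5 * d + 3 * Real.logb 2 ((jordanBound d * J : ℕ) : ℝ) + 3) * R ≤ ρ := by
    rw [hρ]
    apply mul_le_mul_of_nonneg_right _ hR.le
    nlinarith
  refine Pool.Agent.Results.MP_e6a378_co.AbelianIndexBound.result d hd R hR τ hτ (jordanBound d * J)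
    hJB X hsep hX ⟨x₀, hx₀, A.map S.subtype, (Subgroup.map_subtype_le A).trans hSG, ?_, hrel⟩ ?_
  · rintro _ ⟨a, ha, rfl⟩ _ ⟨b, hb, rfl⟩
    apply cplxRep_injOn (x := x₀)
    · exact hfix (a * b)
    · exact hfix (b * a)
    · exact hAc a ha b hb
  · intro x hx y hy
    obtain ⟨g, hgx, hg⟩ := hiso x hx y hy
    refine ⟨g, hgx, ?_⟩
    ext z
    constructor
    · rintro ⟨w, ⟨hw, hwd⟩, rfl⟩
      have h1 : g w ∈ X ∩ Metric.closedBall y ρ := by
        rw [← hg]
        refine ⟨w, ⟨hw, ?_⟩, rfl⟩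
        exact Metric.closedBall_subset_closedBall hρ' hwd
      refine ⟨h1.1, ?_⟩
      rw [mem_closedBall, ← hgx, g.dist_eq]
      exact hwd
    · rintro ⟨hz, hzd⟩
      have h1 : z ∈ g '' (X ∩ Metric.closedBall x ρ) := by
        rw [hg]
        exact ⟨hz, Metric.closedBall_subset_closedBall hρ' hzd⟩
      obtain ⟨w, hw, rfl⟩ := h1
      refine ⟨w, ⟨hw.1, ?_⟩, rfl⟩
      rw [mem_closedBall, ← hgx, g.dist_eq] at hzd
      exact hzd

end Pool.Agent.Results.MP_e6a378_co.SolvableBound
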